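import Pool.Agent.Q14.NCH.Main
import Pool.Agent.Q14.NCH.TaskSupp
import Pool.Agent.Q14.NCH.TaskInt
import Pool.Agent.Q14.NCH.TaskOrder
import Pool.Agent.Q14.NCH.TaskThree
import Pool.Agent.Q14.NCH.TaskLex
import Pool.Agent.Q14.NCH.TaskSort
import Pool.Agent.Q14.NCH.TaskLabel
import Pool.Agent.Q14.NCH.TaskIso
import Pool.Agent.Q14.NCH.TaskRankIso

/-!
# The noncrossing partitions of a hull configuration without blank sides are not rank-symmetric
-/

namespace Pool.Agent.Results.MP_f3bbeb_co.NotRankSymmetric

/-- The plane. -/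
abbrev Plane := ℝ × ℝ

/-- Twice the signed area of the triangle `abc`: it is positive if `c` is on the left of the line from `a` to `b`,
and `0` if `c` is on this line. -/
def orient (a b c : Plane) : ℝ := (b.1 - a.1) * (c.2 - a.2) - (b.2 - a.2) * (c.1 - a.1)

/-- `P` is a hull configuration which is not contained in a line: all points are on the boundary of the convex hull. -/
def IsHullConfiguration (P : Finset Plane) : Prop :=
  ¬ Collinear ℝ (P : Set Plane) ∧ ∀ x ∈ P, x ∈ frontier (convexHull ℝ (P : Set Plane))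

/-- No side is blank: if `a` and `b` are points of `P` and no point of `P` is on the right of the line from `a` to `b`
(so that this line contains a side of the convex hull), then the line contains a third point of `P`. -/
def NoBlankSide (P : Finset Plane) : Prop :=
  ∀ a ∈ P, ∀ b ∈ P, a ≠ b → (∀ c ∈ P, 0 ≤ orient a b c) → ∃ c ∈ P, c ≠ a ∧ c ≠ b ∧ orient a b c = 0

/-- The poset `NC(P)` of the noncrossing partitions of `P`: the set partitions whose blocks have pairwise disjoint convex
hulls, ordered by refinement (finer partitions are smaller). -/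
abbrev NC (P : Finset Plane) : Type :=
  {π : Finpartition P // ∀ A ∈ π.parts, ∀ B ∈ π.parts, A ≠ B →
    Disjoint (convexHull ℝ (A : Set Plane)) (convexHull ℝ (B : Set Plane))}

/-- The poset is graded of rank `N`: every maximal chain has `N + 1` elements. -/
def IsGraded (α : Type) [PartialOrder α] (N : ℕ) : Prop :=
  ∀ c : Set α, IsMaxChain (· ≤ ·) c → c.ncard = N + 1

/-- `x` has rank `i`: it is in a maximal chain which has exactly `i` elements below `x`. -/
def HasRank {α : Type} [PartialOrder α] (x : α) (i : ℕ) : Prop :=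
  ∃ c : Set α, IsMaxChain (· ≤ ·) c ∧ x ∈ c ∧ {y | y ∈ c ∧ y < x}.ncard = i

/-- The poset is rank-symmetric: it is graded of some rank `N`, and for `0 ≤ i ≤ N` there are as many elements of rank
`i` as of rank `N - i`. -/
def RankSymmetric (α : Type) [PartialOrder α] : Prop :=
  ∃ N : ℕ, IsGraded α N ∧
    ∀ i, i ≤ N → {x : α | HasRank x i}.ncard = {x : α | HasRank x (N - i)}.ncard

lemma noBlank {P : Finset Plane} (hb : NoBlankSide P) {n : ℕ} {p : Fin (n + 1) → Plane}
    (hinj : Function.Injective p) (hr : Set.range p = (P : Set Plane)) :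
    Q14NCH.NoBlank (n + 1) (Q14NCH.seqOf p) := by
  have hmem : ∀ i, p i ∈ P := fun i => by
    have : p i ∈ (P : Set Plane) := hr ▸ Set.mem_range_self i
    exact this
  have hseq : ∀ i : Fin (n + 1), Q14NCH.seqOf p (i : ℕ) = p i := by
    intro i
    unfold Q14NCH.seqOf
    congr 1
    apply Fin.ext
    simp [Fin.ofNat, Nat.mod_eq_of_lt i.2]
  intro a b ha hb' hab hleft
  have hne : p ⟨a, ha⟩ ≠ p ⟨b, hb'⟩ := fun h => hab (by simpa using hinj h)
  have ea := hseq ⟨a, ha⟩
  have eb := hseq ⟨b, hb'⟩
  simp only at ea eb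
  obtain ⟨c, hc, hca, hcb, h0⟩ := hb _ (hmem ⟨a, ha⟩) _ (hmem ⟨b, hb'⟩) hne (by
    intro c hc
    have hc' : c ∈ Set.range p := by rw [hr]; exact hc
    obtain ⟨k, rfl⟩ := hc'
    have := hleft k k.2
    rw [hseq k, ea, eb] at this
    exact this)
  have hc' : c ∈ Set.range p := by rw [hr]; exact hc
  obtain ⟨k, rfl⟩ := hc'
  refine ⟨k, k.2, ?_, ?_, ?_⟩
  · rintro h
    apply hca
    congr 1
    exact Fin.ext h
  · rintro h
    apply hcb
    congr 1
    exact Fin.ext h
  · rw [hseq k, ea, eb]
    exact h0

/-- **Main theorem.** If `P` is a hull configuration, not contained in a line, such that no side of the convex hull is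
blank, then `NC(P)` is not rank-symmetric. -/
theorem result (P : Finset Plane) (hP : IsHullConfiguration P) (hb : NoBlankSide P) :
    ¬ RankSymmetric (NC P) := by
  intro hR
  obtain ⟨n, p, hinj, hr, hH⟩ := Q14NCH.Label Q14NCH.Supp Q14NCH.Int Q14NCH.Order Q14NCH.Three Q14NCH.Lex
    Q14NCH.Sort_proof P hP
  exact Q14NCH.labelled n p hinj hH (noBlank hb hinj hr)
    (Q14NCH.RankIso _ _ (Q14NCH.Iso P n p hinj hr) hR)

end Pool.Agent.Results.MP_f3bbeb_co.NotRankSymmetric
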